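import Pool.Agent.H647R3.GDef


/-!
# TaskME: Mycielski's theorem in `Th X` (helper871)
-/

open Set Topology Filter

namespace Pool.Agent.H871R3.ME

open H647R3.GDS

universe u v

section top

variable {Y : Type u} [TopologicalSpace Y] {I : Type v}

/-- a family of nonempty open subsets of `O` -/
def Good (O : Set Y) (V : I → Set Y) : Prop :=
  ∀ i, IsOpen (V i) ∧ (V i).Nonempty ∧ V i ⊆ O

theorem pairs [DecidableEq I] {O : Set Y} {W : Set (Y × Y)} (hW : IsOpen W)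
    (hd : O ×ˢ O ⊆ closure W) (S : Finset (I × I)) (hS : ∀ p ∈ S, p.1 ≠ p.2)
    (V : I → Set Y) (hV : Good O V) :
    ∃ V' : I → Set Y, Good O V' ∧ (∀ i, V' i ⊆ V i) ∧ ∀ p ∈ S, V' p.1 ×ˢ V' p.2 ⊆ W := by
  induction S using Finset.induction_on with
  | empty => exact ⟨V, hV, fun _ => subset_rfl, by simp⟩
  | insert p S hp ih =>
    obtain ⟨V', h1, h2, h3⟩ := ih (fun q hq => hS q (Finset.mem_insert_of_mem hq))
    have hne : p.1 ≠ p.2 := hS p (Finset.mem_insert_self _ _)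
    obtain ⟨a, ha⟩ := (h1 p.1).2.1
    obtain ⟨b, hb⟩ := (h1 p.2).2.1
    have hmem : (a, b) ∈ closure W := hd ⟨(h1 p.1).2.2 ha, (h1 p.2).2.2 hb⟩
    have hopen : IsOpen (V' p.1 ×ˢ V' p.2) := (h1 p.1).1.prod (h1 p.2).1
    obtain ⟨⟨c, d⟩, hcd, hcdW⟩ := mem_closure_iff.1 hmem _ hopen ⟨ha, hb⟩
    obtain ⟨A, B, hA, hB, hcA, hdB, hAB⟩ := isOpen_prod_iff.1 (hopen.inter hW) c d ⟨hcd, hcdW⟩
    have hAV : A ⊆ V' p.1 := fun x hx => (hAB (show (x, d) ∈ A ×ˢ B from ⟨hx, hdB⟩)).1.1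
    have hBV : B ⊆ V' p.2 := fun x hx => (hAB (show (c, x) ∈ A ×ˢ B from ⟨hcA, hx⟩)).1.2
    have e1 : Function.update (Function.update V' p.1 A) p.2 B p.1 = A := by
      rw [Function.update_of_ne hne, Function.update_self]
    have e2 : Function.update (Function.update V' p.1 A) p.2 B p.2 = B := by
      rw [Function.update_self]
    have e3 : ∀ i, i ≠ p.1 → i ≠ p.2 →
        Function.update (Function.update V' p.1 A) p.2 B i = V' i := by
      intro i hi1 hi2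
      rw [Function.update_of_ne hi2, Function.update_of_ne hi1]
    generalize Function.update (Function.update V' p.1 A) p.2 B = V'' at e1 e2 e3
    have hsub : ∀ i, V'' i ⊆ V' i := by
      intro i
      by_cases hi1 : i = p.1
      · subst hi1; rw [e1]; exact hAV
      · by_cases hi2 : i = p.2
        · subst hi2; rw [e2]; exact hBV
        · rw [e3 i hi1 hi2]
    refine ⟨V'', ?_, fun i => (hsub i).trans (h2 i), ?_⟩
    · intro i
      by_cases hi1 : i = p.1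
      · subst hi1; rw [e1]; exact ⟨hA, ⟨c, hcA⟩, hAV.trans (h1 _).2.2⟩
      · by_cases hi2 : i = p.2
        · subst hi2; rw [e2]; exact ⟨hB, ⟨d, hdB⟩, hBV.trans (h1 _).2.2⟩
        · rw [e3 i hi1 hi2]; exact h1 i
    · intro q hq
      rcases Finset.mem_insert.1 hq with rfl | hq
      · rw [e1, e2]
        exact fun x hx => (hAB hx).2
      · exact (prod_mono (hsub _) (hsub _)).trans (h3 q hq)

theorem pairsN [DecidableEq I] {O : Set Y} {W : ℕ → Set (Y × Y)} (hW : ∀ n, IsOpen (W n))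
    (hd : ∀ n, O ×ˢ O ⊆ closure (W n)) (S : Finset (I × I)) (hS : ∀ p ∈ S, p.1 ≠ p.2)
    (n : ℕ) (V : I → Set Y) (hV : Good O V) :
    ∃ V' : I → Set Y, Good O V' ∧ (∀ i, V' i ⊆ V i) ∧
      ∀ k < n, ∀ p ∈ S, V' p.1 ×ˢ V' p.2 ⊆ W k := by
  induction n with
  | zero => exact ⟨V, hV, fun _ => subset_rfl, by simp⟩
  | succ n ih =>
    obtain ⟨V', h1, h2, h3⟩ := ih
    obtain ⟨V'', g1, g2, g3⟩ := pairs (hW n) (hd n) S hS V' h1
    refine ⟨V'', g1, fun i => (g2 i).trans (h2 i), ?_⟩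
    intro k hk p hp
    rcases Nat.lt_succ_iff_lt_or_eq.1 hk with hk | rfl
    · exact (prod_mono (g2 _) (g2 _)).trans (h3 k hk p hp)
    · exact g3 p hp

theorem singlesN {O : Set Y} {D : ℕ → Set Y} (hD : ∀ n, IsOpen (D n))
    (hd : ∀ n, O ⊆ closure (D n)) (n : ℕ) (V : I → Set Y) (hV : Good O V) :
    ∃ V' : I → Set Y, Good O V' ∧ (∀ i, V' i ⊆ V i) ∧ ∀ k < n, ∀ i, V' i ⊆ D k := by
  induction n with
  | zero => exact ⟨V, hV, fun _ => subset_rfl, by simp⟩
  | succ n ih =>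
    obtain ⟨V', h1, h2, h3⟩ := ih
    refine ⟨fun i => V' i ∩ D n, ?_, fun i => inter_subset_left.trans (h2 i), ?_⟩
    · intro i
      obtain ⟨a, ha⟩ := (h1 i).2.1
      refine ⟨(h1 i).1.inter (hD n), ?_, inter_subset_left.trans (h1 i).2.2⟩
      exact mem_closure_iff.1 (hd n ((h1 i).2.2 ha)) _ (h1 i).1 ha
    · intro k hk i
      rcases Nat.lt_succ_iff_lt_or_eq.1 hk with hk | rfl
      · exact inter_subset_left.trans (h3 k hk i)
      · exact inter_subset_right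

end top

section basic

variable {X : Type u} [NormedAddCommGroup X] [NormedSpace ℝ X]

/-- data of a basic open set -/
structure Dat (X : Type u) [NormedAddCommGroup X] [NormedSpace ℝ X] where
  x : X
  r : ℝ
  A : Finset (JJ X)
  c : JJ X → ℝ
  hr : 0 < r

/-- the basic open set -/
def Bs (d : Dat X) : Set (Th X) := {p | ‖p.1.1 - d.x‖ < d.r ∧ ∀ a ∈ d.A, |p.1.2 a - d.c a| < d.r}

/-- strong inclusion -/
def SI (d' d : Dat X) : Prop :=
  ‖d'.x - d.x‖ + 2 * d'.r < d.r ∧ d.A ⊆ d'.A ∧ ∀ a ∈ d.A, |d'.c a - d.c a| + 2 * d'.r < d.r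

theorem Bs_open (d : Dat X) : IsOpen (Bs d) := by
  have h1 : IsOpen {p : Th X | ‖p.1.1 - d.x‖ < d.r} := by
    apply isOpen_lt _ continuous_const
    exact ((continuous_fst.comp continuous_subtype_val).sub continuous_const).norm
  have h2 : IsOpen {p : Th X | ∀ a ∈ d.A, |p.1.2 a - d.c a| < d.r} := by
    have : {p : Th X | ∀ a ∈ d.A, |p.1.2 a - d.c a| < d.r} =
        ⋂ a ∈ d.A, {p : Th X | |p.1.2 a - d.c a| < d.r} := by
      ext p; simp
    rw [this]
    refine isOpen_biInter_finset fun a _ => ?_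
    apply isOpen_lt _ continuous_const
    exact (((continuous_apply a).comp (continuous_snd.comp continuous_subtype_val)).sub
      continuous_const).abs
  exact h1.inter h2

open Classical in
theorem Bs_nonempty (d : Dat X) : (Bs d).Nonempty := by
  refine ⟨⟨(d.x, fun j => if j ∈ d.A then d.c j else j.1 d.x), ?_⟩, ?_, ?_⟩
  · refine (d.A.finite_toSet.countable).mono ?_
    intro j hj
    by_contra hcon
    apply hj
    simp only [Finset.mem_coe] at hcon
    simp [hcon]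
  · simp [d.hr]
  · intro a ha
    simp [ha, d.hr]

theorem exists_dat {V : Set (Th X)} (hV : IsOpen V) {p : Th X} (hp : p ∈ V) {d : Dat X}
    (hd : p ∈ Bs d) {ε : ℝ} (hε : 0 < ε) :
    ∃ d' : Dat X, SI d' d ∧ Bs d' ⊆ V ∧ d'.r ≤ ε := by
  classical
  obtain ⟨U, hU, rfl⟩ := isOpen_induced_iff.1 hV
  obtain ⟨u, v, hu, hv, hpu, hpv, huv⟩ := isOpen_prod_iff.1 hU p.1.1 p.1.2 hp
  obtain ⟨ρ, hρ, hρu⟩ := Metric.isOpen_iff.1 hu _ hpu
  obtain ⟨I, w, hw, hwv⟩ := isOpen_pi_iff.1 hv _ hpv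
  have e1 : ∀ᶠ δ in 𝓝[>] (0 : ℝ), δ ≤ ε :=
    (eventually_le_nhds hε).filter_mono nhdsWithin_le_nhds
  have e2 : ∀ᶠ δ in 𝓝[>] (0 : ℝ), δ ≤ ρ :=
    (eventually_le_nhds hρ).filter_mono nhdsWithin_le_nhds
  have e3 : ∀ᶠ δ in 𝓝[>] (0 : ℝ), ‖p.1.1 - d.x‖ + 2 * δ < d.r := by
    have : Tendsto (fun δ : ℝ => ‖p.1.1 - d.x‖ + 2 * δ) (𝓝 0) (𝓝 (‖p.1.1 - d.x‖ + 2 * 0)) :=
      (continuous_const.add (continuous_const.mul continuous_id)).tendsto 0
    rw [mul_zero, add_zero] at this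
    exact (this.eventually (gt_mem_nhds hd.1)).filter_mono nhdsWithin_le_nhds
  have e4 : ∀ᶠ δ in 𝓝[>] (0 : ℝ), ∀ a ∈ d.A, |p.1.2 a - d.c a| + 2 * δ < d.r := by
    rw [Finset.eventually_all]
    intro a ha
    have : Tendsto (fun δ : ℝ => |p.1.2 a - d.c a| + 2 * δ) (𝓝 0) (𝓝 (|p.1.2 a - d.c a| + 2 * 0)) :=
      (continuous_const.add (continuous_const.mul continuous_id)).tendsto 0
    rw [mul_zero, add_zero] at this
    exact (this.eventually (gt_mem_nhds (hd.2 a ha))).filter_mono nhdsWithin_le_nhds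
  have e5 : ∀ᶠ δ in 𝓝[>] (0 : ℝ), ∀ a ∈ I, Metric.ball (p.1.2 a) δ ⊆ w a := by
    rw [Finset.eventually_all]
    intro a ha
    obtain ⟨ρ', hρ', hρw⟩ := Metric.isOpen_iff.1 (hw a ha).1 _ (hw a ha).2
    have : ∀ᶠ δ in 𝓝[>] (0 : ℝ), δ ≤ ρ' :=
      (eventually_le_nhds hρ').filter_mono nhdsWithin_le_nhds
    exact this.mono fun δ hδ => (Metric.ball_subset_ball hδ).trans hρw
  have e6 : ∀ᶠ δ in 𝓝[>] (0 : ℝ), 0 < δ := self_mem_nhdsWithin
  obtain ⟨δ, h1, h2, h3, h4, h5, h6⟩ := (e1.and (e2.and (e3.and (e4.and (e5.and e6))))).exists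
  refine ⟨⟨p.1.1, δ, d.A ∪ I, p.1.2, h6⟩, ⟨h3, Finset.subset_union_left, h4⟩, ?_, h1⟩
  intro q hq
  have hq1 : ‖q.1.1 - p.1.1‖ < δ := hq.1
  have hq2 : ∀ a ∈ d.A ∪ I, |q.1.2 a - p.1.2 a| < δ := hq.2
  apply huv
  refine ⟨hρu ?_, hwv ?_⟩
  · rw [Metric.mem_ball, dist_eq_norm]
    linarith
  · intro a ha
    apply h5 a ha
    rw [Metric.mem_ball, Real.dist_eq]
    exact hq2 a (Finset.mem_union_right _ ha)

theorem step {O : Set (Th X)}
    {D : ℕ → Set (Th X)} (hD : ∀ n, IsOpen (D n)) (hDd : ∀ n, O ⊆ closure (D n))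
    {W : ℕ → Set (Th X × Th X)} (hW : ∀ n, IsOpen (W n)) (hWd : ∀ n, O ×ˢ O ⊆ closure (W n))
    (n : ℕ) (d : List Bool → Dat X) (hd : ∀ l, Bs (d l) ⊆ O) :
    ∃ d' : List Bool → Dat X, (∀ l, Bs (d' l) ⊆ O) ∧ (∀ b l, SI (d' (b :: l)) (d l)) ∧
      (∀ l, (d' l).r ≤ (1 / 2 : ℝ) ^ n) ∧
      (∀ k < n + 1, ∀ l, Bs (d' l) ⊆ D k) ∧
      (∀ k < n + 1, ∀ l l' : List Bool, l.length = n + 1 → l'.length = n + 1 → l ≠ l' →
        Bs (d' l) ×ˢ Bs (d' l') ⊆ W k) := by
  classical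
  have hV0 : Good O (fun l : List Bool => Bs (d l.tail)) :=
    fun l => ⟨Bs_open _, Bs_nonempty _, hd _⟩
  have hfin : {p : List Bool × List Bool | (p.1.length = n + 1 ∧ p.2.length = n + 1) ∧
      p.1 ≠ p.2}.Finite := by
    refine Finite.subset ((List.finite_length_eq Bool (n + 1)).prod
      (List.finite_length_eq Bool (n + 1))) ?_
    intro p hp
    exact ⟨hp.1.1, hp.1.2⟩
  obtain ⟨V1, a1, a2, a3⟩ := pairsN hW hWd hfin.toFinset
    (fun p hp => (hfin.mem_toFinset.1 hp).2) (n + 1) _ hV0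
  obtain ⟨V2, b1, b2, b3⟩ := singlesN hD hDd (n + 1) V1 a1
  have hex : ∀ l : List Bool, ∃ d' : Dat X, SI d' (d l.tail) ∧ Bs d' ⊆ V2 l ∧
      d'.r ≤ (1 / 2 : ℝ) ^ n := by
    intro l
    obtain ⟨p, hp⟩ := (b1 l).2.1
    exact exists_dat (b1 l).1 hp (a2 l (b2 l hp)) (by positivity)
  choose d' c1 c2 c3 using hex
  refine ⟨d', fun l => (c2 l).trans (b1 l).2.2, fun b l => c1 (b :: l), c3, ?_, ?_⟩
  · intro k hk l
    exact (c2 l).trans (b3 k hk l)
  · intro k hk l l' hl hl' hne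
    exact (prod_mono ((c2 l).trans (b2 l)) ((c2 l').trans (b2 l'))).trans
      (a3 k hk (l, l') (hfin.mem_toFinset.2 ⟨⟨hl, hl'⟩, hne⟩))

end basic

theorem lim_gen {F : Type v} [NormedAddCommGroup F] [CompleteSpace F] (s : ℕ → F) (r : ℕ → ℝ)
    (N : ℕ) (hr : ∀ n, 0 < r n) (hr0 : Tendsto r atTop (𝓝 0))
    (hs : ∀ n, N ≤ n → ‖s (n + 1) - s n‖ + 2 * r (n + 1) < r n) :
    ∃ L : F, ∀ n, N ≤ n → ‖L - s n‖ < r n := by
  have h : ∀ n, N ≤ n → ∀ k, ‖s (n + k) - s n‖ + r (n + k) ≤ r n := by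
    intro n hn k
    induction k with
    | zero => simp
    | succ k ih =>
      have h1 := hs (n + k) (by omega)
      have h2 := norm_sub_le_norm_sub_add_norm_sub (s (n + (k + 1))) (s (n + k)) (s n)
      have h3 := hr (n + (k + 1))
      rw [← add_assoc] at h2 h3 ⊢
      linarith
  have hc : CauchySeq fun k => s (N + k) := by
    refine cauchySeq_of_le_tendsto_0 (fun K => 2 * r (N + K)) ?_ ?_
    · intro a b K ha hb
      rw [dist_eq_norm]
      have h1 := h (N + K) (by omega) (a - K)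
      have h2 := h (N + K) (by omega) (b - K)
      have e1 : N + K + (a - K) = N + a := by omega
      have e2 : N + K + (b - K) = N + b := by omega
      rw [e1] at h1
      rw [e2] at h2
      have h3 := norm_sub_le_norm_sub_add_norm_sub (s (N + a)) (s (N + K)) (s (N + b))
      rw [norm_sub_rev (s (N + K)) (s (N + b))] at h3
      have h4 := hr (N + a)
      have h5 := hr (N + b)
      linarith
    · have h6 : Tendsto (fun K => r (N + K)) atTop (𝓝 0) := by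
        have := (tendsto_add_atTop_iff_nat N).2 hr0
        simpa [add_comm] using this
      simpa using h6.const_mul 2
  obtain ⟨L, hL⟩ := cauchySeq_tendsto_of_complete hc
  refine ⟨L, fun n hn => ?_⟩
  have h1 : Tendsto (fun k => ‖s (N + k) - s n‖) atTop (𝓝 ‖L - s n‖) :=
    (hL.sub tendsto_const_nhds).norm
  have h2 : ∀ᶠ k in atTop, ‖s (N + k) - s n‖ ≤ r n - r (n + 1) := by
    filter_upwards [eventually_ge_atTop (n + 1)] with k hk
    have h3 := h (n + 1) (by omega) (N + k - (n + 1))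
    have e : n + 1 + (N + k - (n + 1)) = N + k := by omega
    rw [e] at h3
    have h4 := hs n hn
    have h5 := norm_sub_le_norm_sub_add_norm_sub (s (N + k)) (s (n + 1)) (s n)
    have h6 := hr (N + k)
    linarith
  have h3 := le_of_tendsto h1 h2
  have h4 := hr (n + 1)
  linarith

section lim

variable {X : Type u} [NormedAddCommGroup X] [NormedSpace ℝ X] [CompleteSpace X]

open Classical in
theorem lim_dat (δ : ℕ → Dat X) (hS : ∀ n, SI (δ (n + 1)) (δ n))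
    (hr0 : Tendsto (fun n => (δ n).r) atTop (𝓝 0)) : ∃ p : Th X, ∀ n, p ∈ Bs (δ n) := by
  obtain ⟨x, hx⟩ := lim_gen (fun n => (δ n).x) (fun n => (δ n).r) 0 (fun n => (δ n).hr) hr0
    (fun n _ => (hS n).1)
  have hmono : ∀ m n, m ≤ n → (δ m).A ⊆ (δ n).A := by
    intro m n hmn
    induction n, hmn using Nat.le_induction with
    | base => exact subset_rfl
    | succ n _ ih => exact ih.trans (hS n).2.1
  have hc : ∀ j : JJ X, (∃ n, j ∈ (δ n).A) → ∃ L : ℝ, ∀ n, j ∈ (δ n).A → |L - (δ n).c j| < (δ n).r := by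
    intro j hj
    obtain ⟨L, hL⟩ := lim_gen (fun n => (δ n).c j) (fun n => (δ n).r) (Nat.find hj)
      (fun n => (δ n).hr) hr0 (fun n hn => (hS n).2.2 j (hmono _ _ hn (Nat.find_spec hj)))
    exact ⟨L, fun n hn => hL n (Nat.find_min' hj hn)⟩
  choose! c hc using hc
  refine ⟨⟨(x, fun j => if ∃ n, j ∈ (δ n).A then c j else j.1 x), ?_⟩, fun n => ⟨?_, ?_⟩⟩
  · have hcount : (⋃ n, ((δ n).A : Set (JJ X))).Countable :=
      countable_iUnion fun n => (δ n).A.finite_toSet.countable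
    refine hcount.mono ?_
    intro j hj
    by_contra hcon
    apply hj
    have hne : ¬ ∃ n, j ∈ (δ n).A := by
      rintro ⟨n, hn⟩
      exact hcon (mem_iUnion.2 ⟨n, hn⟩)
    show (if ∃ n, j ∈ (δ n).A then c j else j.1 x) = j.1 x
    rw [if_neg hne]
  · exact hx n (Nat.zero_le _)
  · intro a ha
    show |(if ∃ n, a ∈ (δ n).A then c a else a.1 x) - (δ n).c a| < (δ n).r
    rw [if_pos ⟨n, ha⟩]
    exact hc a ⟨n, ha⟩ n ha

open PiNat in
theorem main {O : Set (Th X)} (hO : IsOpen O) (hOne : O.Nonempty)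
    {D : ℕ → Set (Th X)} (hD : ∀ n, IsOpen (D n)) (hDd : ∀ n, O ⊆ closure (D n))
    {W : ℕ → Set (Th X × Th X)} (hW : ∀ n, IsOpen (W n)) (hWd : ∀ n, O ×ˢ O ⊆ closure (W n)) :
    ∃ z : Cant → Th X, Continuous (fun σ => (z σ).1.1) ∧ (∀ σ, z σ ∈ O) ∧ (∀ σ n, z σ ∈ D n) ∧
      (∀ σ σ', σ ≠ σ' → ∀ n, (z σ, z σ') ∈ W n) := by
  obtain ⟨p, hp⟩ := hOne
  obtain ⟨d0, -, hd0, -⟩ := exists_dat hO hp (d := ⟨p.1.1, 1, ∅, 0, one_pos⟩)
    (by constructor <;> simp) one_pos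
  choose! N h1 h2 h3 h4 h5 using
    fun n (d : List Bool → Dat X) (hd : ∀ l, Bs (d l) ⊆ O) => step hD hDd hW hWd n d hd
  let F : ℕ → List Bool → Dat X := fun n => Nat.rec (fun _ => d0) (fun n V => N n V) n
  have hF0 : F 0 = fun _ => d0 := rfl
  have hFs : ∀ n, F (n + 1) = N n (F n) := fun n => rfl
  have hF : ∀ n l, Bs (F n l) ⊆ O := by
    intro n
    induction n with
    | zero => exact fun l => hd0
    | succ n ih => rw [hFs]; exact h1 n (F n) ih
  let δ : Cant → ℕ → Dat X := fun σ n => F n (res σ n)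
  have hS : ∀ σ n, SI (δ σ (n + 1)) (δ σ n) := by
    intro σ n
    show SI (F (n + 1) (res σ (n + 1))) (F n (res σ n))
    rw [hFs, res_succ]
    exact h2 n (F n) (hF n) (σ n) (res σ n)
  have hr : ∀ σ n, (δ σ (n + 1)).r ≤ (1 / 2 : ℝ) ^ n := by
    intro σ n
    show (F (n + 1) (res σ (n + 1))).r ≤ _
    rw [hFs]
    exact h3 n (F n) (hF n) _
  have hr0 : ∀ σ, Tendsto (fun n => (δ σ n).r) atTop (𝓝 0) := by
    intro σ
    rw [← tendsto_add_atTop_iff_nat 1]
    exact squeeze_zero (fun n => (δ σ (n + 1)).hr.le) (hr σ)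
      (tendsto_pow_atTop_nhds_zero_of_lt_one (by norm_num) (by norm_num))
  choose z hz using fun σ => lim_dat (δ σ) (hS σ) (hr0 σ)
  refine ⟨z, ?_, ?_, ?_, ?_⟩
  · rw [continuous_iff_continuousAt]
    intro σ
    rw [ContinuousAt, Metric.tendsto_nhds]
    intro ε hε
    obtain ⟨n, hn⟩ := exists_pow_lt_of_lt_one (show 0 < ε / 2 by positivity)
      (show (1 / 2 : ℝ) < 1 by norm_num)
    have hcyl : cylinder σ (n + 1) ∈ 𝓝 σ :=
      (isOpen_cylinder (fun _ => Bool) σ (n + 1)).mem_nhds (self_mem_cylinder σ (n + 1))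
    filter_upwards [hcyl] with σ' hσ'
    have hres : res σ' (n + 1) = res σ (n + 1) := by
      rw [res_eq_res]
      intro m hm
      exact hσ' m hm
    have a1 := (hz σ (n + 1)).1
    have a2 := (hz σ' (n + 1)).1
    have e : δ σ' (n + 1) = δ σ (n + 1) := by
      show F (n + 1) (res σ' (n + 1)) = F (n + 1) (res σ (n + 1))
      rw [hres]
    rw [e] at a2
    have a3 := hr σ n
    rw [dist_eq_norm]
    have a4 := norm_sub_le_norm_sub_add_norm_sub (z σ').1.1 (δ σ (n + 1)).x (z σ).1.1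
    rw [norm_sub_rev (δ σ (n + 1)).x (z σ).1.1] at a4
    linarith
  · intro σ
    exact hF 0 (res σ 0) (hz σ 0)
  · intro σ n
    have h := hz σ (n + 1)
    exact h4 n (F n) (hF n) n (Nat.lt_succ_self n) (res σ (n + 1)) h
  · intro σ σ' hne n
    set m := max n (firstDiff σ σ') with hm
    have e1 := hz σ (m + 1)
    have e2 := hz σ' (m + 1)
    refine h5 m (F m) (hF m) n (Nat.lt_succ_of_le (le_max_left _ _)) (res σ (m + 1))
      (res σ' (m + 1)) (res_length _ _) (res_length _ _) ?_ ⟨e1, e2⟩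
    intro h
    rw [res_eq_res] at h
    exact apply_firstDiff_ne hne (h (Nat.lt_succ_of_le (le_max_right _ _)))

end lim

theorem taskME : TaskME.{u} := by
  intro X _ _ _ O hO hOne D hD hDd W hW hWd
  exact main hO hOne hD hDd hW hWd

end Pool.Agent.H871R3.ME
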