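import Mathlib

/-!
Sums `∑ f(n) f(n+2)` for completely multiplicative `f : ℕ → {±1}` (helper871).
-/

set_option autoImplicit false

namespace Pool.Agent.H871R3.Shift2

open Finset

/-- complete multiplicativity and values `±1` on the positive integers -/
def CM (f : ℕ → ℤ) : Prop :=
  (∀ m n, 0 < m → 0 < n → f (m * n) = f m * f n) ∧ ∀ n, 0 < n → f n = 1 ∨ f n = -1

/-- `c(n) = f(n) f(n+2)` -/
def cc (f : ℕ → ℤ) (n : ℕ) : ℤ := f n * f (n + 2)

lemma sq_one {f : ℕ → ℤ} (hf : CM f) {n : ℕ} (hn : 0 < n) : f n * f n = 1 := by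
  rcases hf.2 n hn with h | h <;> rw [h] <;> norm_num

lemma cc_pm {f : ℕ → ℤ} (hf : CM f) {n : ℕ} (hn : 0 < n) : cc f n = 1 ∨ cc f n = -1 := by
  unfold cc
  rcases hf.2 n hn with h | h <;> rcases hf.2 (n + 2) (by omega) with h' | h' <;>
    rw [h, h'] <;> norm_num

lemma prod_aux {f : ℕ → ℤ} (hf : CM f) {a : ℕ} (ha : 0 < a) (r : ℕ) :
    ∏ i ∈ range r, cc f (a + 2 * i) = f a * f (a + 2 * r) := by
  induction r with
  | zero => simp [sq_one hf ha]
  | succ r ih =>
    rw [prod_range_succ, ih]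
    unfold cc
    have h1 := sq_one hf (show 0 < a + 2 * r by omega)
    have h2 : a + 2 * (r + 1) = a + 2 * r + 2 := by ring
    rw [h2]
    calc f a * f (a + 2 * r) * (f (a + 2 * r) * f (a + 2 * r + 2))
        = f a * (f (a + 2 * r) * f (a + 2 * r)) * f (a + 2 * r + 2) := by ring
      _ = f a * f (a + 2 * r + 2) := by rw [h1]; ring

lemma prod_rel {f : ℕ → ℤ} (hf : CM f) {q n : ℕ} (hq : 0 < q) (hn : 0 < n) :
    ∏ i ∈ range q, cc f (q * n + 2 * i) = cc f n := by
  rw [prod_aux hf (Nat.mul_pos hq hn)]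
  have h1 : q * n + 2 * q = q * (n + 2) := by ring
  rw [h1, hf.1 q n hq hn, hf.1 q (n + 2) hq (by omega)]
  unfold cc
  have h2 := sq_one hf hq
  calc f q * f n * (f q * f (n + 2)) = (f q * f q) * (f n * f (n + 2)) := by ring
    _ = f n * f (n + 2) := by rw [h2]; ring

/-- the triple `n, 2n, 2n+2` -/
lemma triple {f : ℕ → ℤ} (hf : CM f) {n : ℕ} (hn : 0 < n) :
    -1 ≤ cc f n + cc f (2 * n) + cc f (2 * n + 2) := by
  have h := prod_rel hf (show 0 < 2 by norm_num) hn
  rw [prod_range_succ, prod_range_succ, prod_range_zero, one_mul] at h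
  simp only [mul_zero, add_zero, mul_one] at h
  rcases cc_pm hf hn with h1 | h1 <;>
    rcases cc_pm hf (show 0 < 2 * n by omega) with h2 | h2 <;>
    rcases cc_pm hf (show 0 < 2 * n + 2 by omega) with h3 | h3 <;>
    (rw [h1, h2, h3] at h; rw [h1, h2, h3]) <;> first | (norm_num; done) | (exfalso; norm_num at h)

/-- the decomposition of the sum up to `4K` -/
lemma decomp (c : ℕ → ℤ) (K : ℕ) :
    ∑ n ∈ Icc 1 (4 * K), c n =
      ∑ k ∈ range K, (c (2 * k + 1) + c (2 * (2 * k + 1)) + c (2 * (2 * k + 1) + 2)) +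
      ∑ k ∈ Ico K (2 * K), c (2 * k + 1) := by
  have key : ∀ K : ℕ, ∑ n ∈ Icc 1 (4 * K), c n =
      ∑ k ∈ range K, (c (2 * (2 * k + 1)) + c (2 * (2 * k + 1) + 2)) +
      ∑ k ∈ range (2 * K), c (2 * k + 1) := by
    intro K
    induction K with
    | zero => simp
    | succ K ih =>
      have e : 4 * (K + 1) = 4 * K + 1 + 1 + 1 + 1 := by ring
      rw [e, sum_Icc_succ_top (by omega), sum_Icc_succ_top (by omega),
        sum_Icc_succ_top (by omega), sum_Icc_succ_top (by omega), ih, sum_range_succ _ K]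
      have e2 : 2 * (K + 1) = 2 * K + 1 + 1 := by ring
      rw [e2, sum_range_succ, sum_range_succ]
      have e3 : 2 * (2 * K) + 1 = 4 * K + 1 := by ring
      have e4 : 2 * (2 * K + 1) + 1 = 4 * K + 1 + 1 + 1 := by ring
      have e5 : 2 * (2 * K + 1) = 4 * K + 1 + 1 := by ring
      have e6 : 2 * (2 * K + 1) + 2 = 4 * K + 1 + 1 + 1 + 1 := by ring
      rw [e6, e4, e3, e5]
      ring
  rw [key K]
  have h1 : ∑ k ∈ range (2 * K), c (2 * k + 1) =
      ∑ k ∈ range K, c (2 * k + 1) + ∑ k ∈ Ico K (2 * K), c (2 * k + 1) := by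
    rw [Finset.sum_range_add_sum_Ico _ (by omega)]
  rw [h1, sum_add_distrib, sum_add_distrib, sum_add_distrib]
  ring

/-- number of `k ∈ [K, 2K)` with `c(2k+1) = 1` -/
def gg (f : ℕ → ℤ) (K : ℕ) : ℕ := ((Ico K (2 * K)).filter (fun k => cc f (2 * k + 1) = 1)).card

lemma sum_pm (s : Finset ℕ) (g : ℕ → ℤ) (hg : ∀ k ∈ s, g k = 1 ∨ g k = -1) :
    ∑ k ∈ s, g k = 2 * ((s.filter (fun k => g k = 1)).card : ℤ) - s.card := by
  have h : ∀ k ∈ s, g k = 2 * (if g k = 1 then 1 else 0) - 1 := by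
    intro k hk
    rcases hg k hk with h | h <;> rw [h] <;> norm_num
  rw [sum_congr rfl h, sum_sub_distrib, ← mul_sum, sum_boole]
  simp

lemma lower {f : ℕ → ℤ} (hf : CM f) (K : ℕ) :
    -(2 * K : ℤ) + 2 * gg f K ≤ ∑ n ∈ Icc 1 (4 * K), cc f n := by
  rw [decomp]
  have h1 : -(K : ℤ) ≤ ∑ k ∈ range K, (cc f (2 * k + 1) + cc f (2 * (2 * k + 1)) +
      cc f (2 * (2 * k + 1) + 2)) := by
    have : ∑ k ∈ range K, (-1 : ℤ) ≤ ∑ k ∈ range K, (cc f (2 * k + 1) + cc f (2 * (2 * k + 1)) +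
      cc f (2 * (2 * k + 1) + 2)) := sum_le_sum fun k _ => triple hf (by omega)
    simpa using this
  have h2 : ∑ k ∈ Ico K (2 * K), cc f (2 * k + 1) = 2 * gg f K - K := by
    rw [sum_pm _ _ (fun k _ => cc_pm hf (by omega))]
    unfold gg
    rw [Nat.card_Ico]
    have : 2 * K - K = K := by omega
    rw [this]
  rw [h2]
  linarith

/-- the bound for all `N` -/
lemma lower_all {f : ℕ → ℤ} (hf : CM f) (N : ℕ) :
    -(N : ℤ) + 4 * gg f (N / 4) - 3 ≤ 2 * ∑ n ∈ Icc 1 N, cc f n := by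
  obtain ⟨K, r, hr, rfl⟩ : ∃ K r, r < 4 ∧ N = 4 * K + r :=
    ⟨N / 4, N % 4, Nat.mod_lt _ (by norm_num), by omega⟩
  have hK : (4 * K + r) / 4 = K := by omega
  rw [hK]
  have h1 := lower hf K
  have h2 : ∀ r : ℕ, ∑ n ∈ Icc 1 (4 * K), cc f n - r ≤ ∑ n ∈ Icc 1 (4 * K + r), cc f n := by
    intro r
    induction r with
    | zero => simp
    | succ r ih =>
      rw [← add_assoc, sum_Icc_succ_top (by omega)]
      have : -1 ≤ cc f (4 * K + r + 1) := by
        rcases cc_pm hf (show 0 < 4 * K + r + 1 by omega) with h | h <;> rw [h] <;> norm_num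
      push_cast
      linarith
  have h3 := h2 r
  push_cast
  have h4 : (r : ℤ) ≤ 3 := by omega
  linarith

lemma exists_one {f : ℕ → ℤ} (hf : CM f) {q n : ℕ} (hq : Odd q) (hn : 0 < n)
    (h : cc f n = 1) : ∃ i < q, cc f (q * n + 2 * i) = 1 := by
  by_contra hcon
  push Not at hcon
  have hq0 : 0 < q := hq.pos
  have h1 := prod_rel hf hq0 hn
  have h2 : ∏ i ∈ range q, cc f (q * n + 2 * i) = ∏ i ∈ range q, (-1 : ℤ) := by
    refine prod_congr rfl fun i hi => ?_
    have hpos : 0 < q * n + 2 * i := by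
      have := Nat.mul_pos hq0 hn
      omega
    exact (cc_pm hf hpos).resolve_left (hcon i (mem_range.1 hi))
  rw [h2, prod_const, card_range, hq.neg_one_pow, h] at h1
  norm_num at h1

/-- localisation: solutions at small scales produce solutions in `[K, 2K)` -/
lemma transfer {f : ℕ → ℤ} (hf : CM f) (K R : ℕ) :
    ((Icc 9 (K / 3)).filter (fun m => K ≤ R * m ∧ cc f (2 * m + 1) = 1)).card ≤
      (R + 3) * gg f K := by
  classical
  -- for every such `m` there are `q` and `k`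
  have hex : ∀ m ∈ (Icc 9 (K / 3)).filter (fun m => K ≤ R * m ∧ cc f (2 * m + 1) = 1),
      ∃ t : ℕ × ℕ, t ∈ (range (R + 3)) ×ˢ ((Ico K (2 * K)).filter
        (fun k => cc f (2 * k + 1) = 1)) ∧ t.1 * (2 * m + 1) ≤ 2 * t.2 + 1 ∧
        2 * t.2 + 1 < t.1 * (2 * m + 3) := by
    intro m hm
    rw [mem_filter, mem_Icc] at hm
    obtain ⟨⟨hm1, hm2⟩, hm3, hm4⟩ := hm
    have hm2' : 3 * m ≤ K := by omega
    have hdm := Nat.div_add_mod K m
    have hml := Nat.mod_lt K (show 0 < m by omega)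
    -- the odd number
    obtain ⟨q, hq, hq1, hq2⟩ : ∃ q, Odd q ∧ K / m + 1 ≤ q ∧ q ≤ K / m + 2 := by
      rcases Nat.even_or_odd (K / m + 1) with h | h
      · exact ⟨K / m + 2, h.add_one, by omega, le_refl _⟩
      · exact ⟨K / m + 1, h, le_refl _, by omega⟩
    obtain ⟨i, hi, hc⟩ := exists_one hf hq (show 0 < 2 * m + 1 by omega) hm4
    obtain ⟨j, hj⟩ := hq
    have hkey : q * (2 * m + 1) + 2 * i = 2 * (q * m + j + i) + 1 := by
      rw [hj]; ring
    rw [hkey] at hc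
    have hdiv9 : K / m ≤ K / 9 := Nat.div_le_div_left hm1 (by norm_num)
    have hRq : q < R + 3 := by
      have : K / m ≤ R := by
        calc K / m ≤ (R * m) / m := Nat.div_le_div_right hm3
          _ = R := Nat.mul_div_cancel _ (by omega)
      omega
    have hlow : K ≤ q * m := by
      have h1 : (K / m + 1) * m ≤ q * m := Nat.mul_le_mul_right m hq1
      have h2 : (K / m + 1) * m = m * (K / m) + m := by ring
      omega
    have hupp : q * m ≤ K + 2 * m := by
      have h1 : q * m ≤ (K / m + 2) * m := Nat.mul_le_mul_right m hq2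
      have h2 : (K / m + 2) * m = m * (K / m) + 2 * m := by ring
      omega
    refine ⟨(q, q * m + j + i), ?_, ?_, ?_⟩
    · rw [mem_product, mem_range, mem_filter, mem_Ico]
      refine ⟨hRq, ⟨by omega, ?_⟩, hc⟩
      show q * m + j + i < 2 * K
      omega
    · show q * (2 * m + 1) ≤ 2 * (q * m + j + i) + 1
      omega
    · show 2 * (q * m + j + i) + 1 < q * (2 * m + 3)
      have : q * (2 * m + 3) = q * (2 * m + 1) + 2 * q := by ring
      omega
  choose! F hF1 hF2 hF3 using hex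
  have hcard := Finset.card_le_card_of_injOn F (t := (range (R + 3)) ×ˢ ((Ico K (2 * K)).filter
        (fun k => cc f (2 * k + 1) = 1))) (fun m hm => hF1 m hm) (by
    intro m hm m' hm' he
    have a1 := hF2 m hm
    have a2 := hF3 m hm
    have b1 := hF2 m' hm'
    have b2 := hF3 m' hm'
    rw [he] at a1 a2
    set q := (F m').1
    by_contra hne
    rcases Nat.lt_or_gt_of_ne hne with hlt | hlt
    · have : q * (2 * m + 3) ≤ q * (2 * m' + 1) := Nat.mul_le_mul_left _ (by omega)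
      omega
    · have : q * (2 * m' + 3) ≤ q * (2 * m + 1) := Nat.mul_le_mul_left _ (by omega)
      omega)
  rw [card_product, card_range] at hcard
  exact hcard

/-- positive proportion in dyadic intervals from positive proportion at all scales -/
lemma gg_lower {f : ℕ → ℤ} (hf : CM f) {δ : ℝ} (hδ : 0 < δ) {N₁ : ℕ}
    (h : ∀ N : ℕ, N₁ ≤ N → δ * N ≤ (((Icc 1 N).filter (fun m => cc f (2 * m + 1) = 1)).card : ℝ)) :
    ∃ ε : ℝ, 0 < ε ∧ ∃ K₀ : ℕ, ∀ K : ℕ, K₀ ≤ K → ε * K ≤ gg f K := by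
  -- `R ≥ 12 / δ`
  set R : ℕ := ⌈12 / δ⌉₊ + 1 with hR
  have hRpos : (0 : ℝ) < R := by rw [hR]; positivity
  have hRd : 12 / δ ≤ R := by
    rw [hR]; push_cast
    exact (Nat.le_ceil _).trans (by linarith)
  have hRd' : 12 ≤ δ * R := by
    rw [div_le_iff₀ hδ] at hRd
    linarith
  refine ⟨δ / (12 * (R + 3)), by positivity, max (3 * N₁ + 3) (⌈(10 + δ) * 6 / δ⌉₊ + 30), ?_⟩
  intro K hK
  have hK1 : 3 * N₁ + 3 ≤ K := (le_max_left _ _).trans hK
  have hK2 : ⌈(10 + δ) * 6 / δ⌉₊ + 30 ≤ K := (le_max_right _ _).trans hK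
  have hK3 : (10 + δ) * 6 / δ ≤ K := by
    have h1 : ((⌈(10 + δ) * 6 / δ⌉₊ + 30 : ℕ) : ℝ) ≤ K := by exact_mod_cast hK2
    push_cast at h1
    have h2 := Nat.le_ceil ((10 + δ) * 6 / δ)
    linarith
  have hK4 : (10 + δ) * 6 ≤ δ * K := by
    rw [div_le_iff₀ hδ] at hK3
    linarith
  have h1 := h (K / 3) (by omega)
  have h2 := transfer hf K R
  -- the exceptional set
  have h3 : ((Icc 1 (K / 3)).filter (fun m => cc f (2 * m + 1) = 1)).card ≤
      ((Icc 9 (K / 3)).filter (fun m => K ≤ R * m ∧ cc f (2 * m + 1) = 1)).card +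
        (K / R + 9) := by
    have hsub : (Icc 1 (K / 3)).filter (fun m => cc f (2 * m + 1) = 1) ⊆
        (Icc 9 (K / 3)).filter (fun m => K ≤ R * m ∧ cc f (2 * m + 1) = 1) ∪
          range (K / R + 9) := by
      intro m hm
      rw [mem_filter, mem_Icc] at hm
      rw [mem_union, mem_filter, mem_Icc, mem_range]
      by_cases hlt : m < K / R + 9
      · exact Or.inr hlt
      · left
        have hRn : 0 < R := by rw [hR]; omega
        have hnn : 0 ≤ K / R := Nat.zero_le _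
        have h9 : 9 ≤ m := by
          have : 9 ≤ K / R + 9 := Nat.le_add_left 9 _
          exact this.trans (not_lt.1 hlt)
        refine ⟨⟨h9, hm.1.2⟩, ?_, hm.2⟩
        have h5 : K / R + 1 ≤ m := by omega
        have h6 := Nat.mul_le_mul_left R h5
        have h7 := Nat.div_add_mod K R
        have h8 := Nat.mod_lt K hRn
        rw [mul_add, mul_one] at h6
        omega
    refine (card_le_card hsub).trans ((card_union_le _ _).trans ?_)
    rw [card_range]
  have h4 : (((Icc 1 (K / 3)).filter (fun m => cc f (2 * m + 1) = 1)).card : ℝ) ≤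
      (R + 3) * (gg f K : ℝ) + (K / R + 9) := by
    have h5 : (((Icc 1 (K / 3)).filter (fun m => cc f (2 * m + 1) = 1)).card : ℝ) ≤
        (((R + 3) * gg f K + (K / R + 9) : ℕ) : ℝ) := by
      exact_mod_cast h3.trans (by omega)
    have h6 : ((K / R : ℕ) : ℝ) ≤ (K : ℝ) / R := Nat.cast_div_le
    push_cast at h5
    linarith
  have h5 : (K : ℝ) / 3 - 1 ≤ ((K / 3 : ℕ) : ℝ) := by
    have : (K : ℝ) ≤ 3 * ((K / 3 : ℕ) : ℝ) + 2 := by
      have : K ≤ 3 * (K / 3) + 2 := by omega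
      exact_mod_cast this
    linarith
  have h6 : δ * ((K : ℝ) / 3 - 1) ≤ (R + 3) * (gg f K : ℝ) + (K / R + 9) :=
    (mul_le_mul_of_nonneg_left h5 hδ.le).trans (h1.trans h4)
  have h7 : (K : ℝ) / R ≤ δ * K / 12 := by
    rw [div_le_div_iff₀ hRpos (by norm_num)]
    have : (0 : ℝ) ≤ K := Nat.cast_nonneg _
    nlinarith
  have h8 : δ * K / 12 ≤ (R + 3) * (gg f K : ℝ) := by nlinarith
  rw [div_mul_eq_mul_div, div_le_iff₀ (by positivity)]
  nlinarith

end Pool.Agent.H871R3.Shift2
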