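import Pool.Agent.H871R3.Shift2

set_option autoImplicit false

namespace Pool.Agent.H871R3.Shift2

open Finset

/-- `(-1)^{v₂(n)} χ₄(n / 2^{v₂(n)})` -/
def f0 (n : ℕ) : ℤ := (-1) ^ (n.factorization 2) * ZMod.χ₄ ((n / 2 ^ (n.factorization 2) : ℕ) : ZMod 4)

lemma f0_cm : CM f0 := by
  constructor
  · intro m n hm hn
    unfold f0
    have h1 : (m * n).factorization 2 = m.factorization 2 + n.factorization 2 := by
      rw [Nat.factorization_mul hm.ne' hn.ne']; rfl
    have h2 : m * n / 2 ^ (m * n).factorization 2 =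
        (m / 2 ^ m.factorization 2) * (n / 2 ^ n.factorization 2) := Nat.ordCompl_mul m n 2
    rw [h2, h1, pow_add, Nat.cast_mul, map_mul]
    ring
  · intro n hn
    unfold f0
    have h1 := Nat.coprime_ordCompl Nat.prime_two hn.ne'
    have h2 : (n / 2 ^ n.factorization 2) % 2 = 1 := by
      have := (Nat.coprime_two_left).1 h1
      exact Nat.odd_iff.1 this
    rw [ZMod.χ₄_nat_eq_if_mod_four]
    rcases neg_one_pow_eq_or ℤ (n.factorization 2) with h | h <;> rw [h] <;>
      split_ifs <;> first | omega | norm_num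

lemma f0_odd {n : ℕ} (hn : n % 2 = 1) : f0 n = if n % 4 = 1 then 1 else -1 := by
  unfold f0
  have h1 : n.factorization 2 = 0 := Nat.factorization_eq_zero_of_not_dvd (by omega)
  rw [h1, pow_zero, one_mul, pow_zero, Nat.div_one, ZMod.χ₄_nat_eq_if_mod_four, if_neg (by omega)]

lemma f0_two : f0 2 = -1 := by
  unfold f0
  have h1 : (2 : ℕ).factorization 2 = 1 := Nat.Prime.factorization_self Nat.prime_two
  rw [h1]
  simp

lemma f0_three {p : ℕ} (hp : p % 4 = 3) : f0 p = -1 := by
  rw [f0_odd (by omega), if_neg (by omega)]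

lemma f0_cc {n : ℕ} (hn : n % 2 = 1) : cc f0 n = -1 := by
  unfold cc
  rw [f0_odd hn, f0_odd (show (n + 2) % 2 = 1 by omega)]
  by_cases h : n % 4 = 1
  · rw [if_pos h, if_neg (by omega)]; norm_num
  · rw [if_neg h, if_pos (by omega)]; norm_num

lemma f0_sum (K : ℕ) : ∑ n ∈ Icc 1 (4 * K), cc f0 n = -(2 * K : ℤ) := by
  rw [decomp]
  have h1 : ∀ k ∈ range K, cc f0 (2 * k + 1) + cc f0 (2 * (2 * k + 1)) +
      cc f0 (2 * (2 * k + 1) + 2) = -1 := by
    intro k _
    have h := prod_rel f0_cm (show 0 < 2 by norm_num) (show 0 < 2 * k + 1 by omega)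
    rw [prod_range_succ, prod_range_succ, prod_range_zero, one_mul] at h
    simp only [mul_zero, add_zero, mul_one] at h
    have h0 := f0_cc (n := 2 * k + 1) (by omega)
    rw [h0] at h ⊢
    rcases cc_pm f0_cm (show 0 < 2 * (2 * k + 1) by omega) with h2 | h2 <;>
      rcases cc_pm f0_cm (show 0 < 2 * (2 * k + 1) + 2 by omega) with h3 | h3 <;>
      (rw [h2, h3] at h; rw [h2, h3]) <;> first | (norm_num; done) | (exfalso; norm_num at h)
  have h2 : ∀ k ∈ Ico K (2 * K), cc f0 (2 * k + 1) = -1 := fun k _ => f0_cc (by omega)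
  rw [sum_congr rfl h1, sum_congr rfl h2]
  simp only [sum_const, card_range, Nat.card_Ico, smul_eq_mul, nsmul_eq_mul]
  have : 2 * K - K = K := by omega
  rw [this]
  ring

end Pool.Agent.H871R3.Shift2
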